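import Pool.Agent.Helper9.FL.Stm
import Pool.Agent.Helper9.FJ.Basic

/-!
Project FL (helper9), package SLP (helper64): the slope inequality for multihomogeneous polynomials,
from MIX. (As `Helper81.PP.sec`, with arbitrary index types.)
-/

set_option autoImplicit false
set_option linter.unusedSectionVars false

namespace Pool.Agent.Helper64.FL.SlpAux

open FF Module MvPolynomial Pool.Agent.Helper9.FJ Pool.Agent.Helper9.PP Pool.Agent.Helper9.FL

section

variable {K : Type} [Field K] [Algebra ℂ K] {q : ℕ} {ι : Fin q → Type} [∀ i, Fintype (ι i)]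
  [∀ i, DecidableEq (ι i)]

/-- the derivative in the direction of a vector of the group `j` -/
noncomputable def DD (j : Fin q) :
    (ι j → K) →ₗ[K] Module.End K (MvPolynomial (Σ i, ι i) K) :=
  Fintype.linearCombination K (fun i : ι j => (pderiv (⟨j, i⟩ : Σ i, ι i)).toLinearMap)

theorem DD_apply (j : Fin q) (x : ι j → K) (f : MvPolynomial (Σ i, ι i) K) :
    DD j x f = ∑ i, x i • pderiv (⟨j, i⟩ : Σ i, ι i) f := by
  rw [DD, Fintype.linearCombination_apply, LinearMap.sum_apply]
  rfl

/-- the iterated derivative -/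
noncomputable def PD {N : ℕ} (t : Fin N → Fin q) (v : ∀ s, ι (t s) → K) :
    Module.End K (MvPolynomial (Σ i, ι i) K) := (List.ofFn (fun s => DD (t s) (v s))).prod

theorem PD_succ {N : ℕ} (t : Fin (N + 1) → Fin q) (v : ∀ s, ι (t s) → K)
    (f : MvPolynomial (Σ i, ι i) K) :
    PD t v f = DD (t 0) (v 0) (PD (fun s => t s.succ) (fun s => v s.succ) f) := by
  rw [PD, List.ofFn_succ, List.prod_cons]
  rfl

theorem PD_zero (t : Fin 0 → Fin q) (v : ∀ s, ι (t s) → K) (f : MvPolynomial (Σ i, ι i) K) :
    PD t v f = f := by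
  rw [PD, List.ofFn_zero, List.prod_nil]
  rfl

/-- the substitution -/
noncomputable def ps (h : ∀ j, Matrix (ι j) (ι j) K) :
    MvPolynomial (Σ i, ι i) K →ₐ[K] MvPolynomial (Σ i, ι i) K :=
  aeval (fun x : Σ i, ι i => (∑ i, C (h x.1 x.2 i) * X ⟨x.1, i⟩ : MvPolynomial (Σ i, ι i) K))

theorem ps_C (h : ∀ j, Matrix (ι j) (ι j) K) (c : K) : ps h (C c) = C c := by
  unfold ps
  rw [aeval_C]
  rfl

theorem ps_X (h : ∀ j, Matrix (ι j) (ι j) K) (x : Σ i, ι i) :
    ps h (X x) = ∑ i, C (h x.1 x.2 i) * X ⟨x.1, i⟩ := aeval_X _ _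

theorem coeff0_ps (h : ∀ j, Matrix (ι j) (ι j) K)
    (f : MvPolynomial (Σ i, ι i) K) : coeff 0 (ps h f) = coeff 0 f := by
  rw [← constantCoeff_eq]
  have : (constantCoeff (R := K) (σ := Σ i, ι i)).comp (ps h).toRingHom = constantCoeff := by
    apply MvPolynomial.ringHom_ext
    · intro c
      change constantCoeff (ps h (C c)) = _
      rw [ps_C, constantCoeff_C]
    · intro x
      change constantCoeff (ps h (X x)) = _
      rw [ps_X, constantCoeff_X, map_sum]
      simp
  exact RingHom.congr_fun this f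

theorem DD_ps (h : ∀ j, Matrix (ι j) (ι j) K) (j : Fin q) (x : ι j → K)
    (f : MvPolynomial (Σ i, ι i) K) : DD j x (ps h f) = ps h (DD j ((h j).mulVec x) f) := by
  classical
  induction f using MvPolynomial.induction_on with
  | C c =>
    rw [ps_C, DD_apply, DD_apply]
    simp
  | add p q hp hq =>
    rw [map_add, map_add, hp, hq, map_add, map_add]
  | mul_X p y hp =>
    rw [DD_apply] at hp
    rw [DD_apply] at hp
    rw [map_mul, DD_apply, DD_apply]
    simp only [Derivation.leibniz, smul_add, Finset.sum_add_distrib, map_add, smul_eq_mul,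
      map_sum, map_smul, map_mul]
    have h1 : ∑ i, x i • (ps h p * pderiv (⟨j, i⟩ : Σ i, ι i) (ps h (X y))) =
        ∑ i, (h j).mulVec x i • (ps h p * ps h (pderiv (⟨j, i⟩ : Σ i, ι i) (X y))) := by
      simp only [ps_X, map_sum, Derivation.leibniz, pderiv_C, pderiv_X, smul_eq_mul, mul_zero,
        add_zero]
      by_cases hj : y.1 = j
      · obtain ⟨y1, y2⟩ := y
        subst hj
        have h3 : ∀ (i i' : ι y1), (Pi.single (⟨y1, i'⟩ : Σ i, ι i)
            (1 : MvPolynomial (Σ i, ι i) K) :
            (Σ i, ι i) → MvPolynomial (Σ i, ι i) K) ⟨y1, i⟩ = if i = i' then 1 else 0 := by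
          intro i i'
          rw [Pi.single_apply]
          refine if_congr ?_ rfl rfl
          simp
        simp only [h3, mul_ite, mul_one, mul_zero, Finset.sum_ite_eq, Finset.mem_univ, if_true,
          apply_ite (ps h), map_one, map_zero, smul_ite, smul_zero, Finset.sum_ite_eq']
        rw [Matrix.mulVec, dotProduct, Finset.sum_smul]
        refine Finset.sum_congr rfl fun i _ => ?_
        rw [smul_eq_C_mul, smul_eq_C_mul, C_mul]
        ring
      · have h3 : ∀ (i : ι j) (i' : ι y.1), (Pi.single (⟨j, i⟩ : Σ i, ι i)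
            (1 : MvPolynomial (Σ i, ι i) K) : (Σ i, ι i) → MvPolynomial (Σ i, ι i) K)
              ⟨y.1, i'⟩ = 0 := by
          intro i i'
          rw [Pi.single_apply, if_neg]
          intro h4
          exact hj (congrArg Sigma.fst h4)
        have h4 : ∀ (i : ι j), (Pi.single (⟨j, i⟩ : Σ i, ι i)
            (1 : MvPolynomial (Σ i, ι i) K) : (Σ i, ι i) → MvPolynomial (Σ i, ι i) K) y = 0 := by
          intro i
          rw [Pi.single_apply, if_neg]
          intro h4
          exact hj (congrArg Sigma.fst h4)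
        rw [Finset.sum_eq_zero, Finset.sum_eq_zero]
        · intro i _
          rw [h4, map_zero, mul_zero, smul_zero]
        · intro i _
          rw [Finset.sum_eq_zero, mul_zero, smul_zero]
          intro i' _
          exact (congrArg _ (h3 i i')).trans (mul_zero _)
    have h2 : ∑ i, x i • (ps h (X y) * pderiv (⟨j, i⟩ : Σ i, ι i) (ps h p)) =
        ∑ i, (h j).mulVec x i • (ps h (X y) * ps h (pderiv (⟨j, i⟩ : Σ i, ι i) p)) := by
      simp only [← mul_smul_comm, ← Finset.mul_sum]
      rw [hp, map_sum]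
      simp only [map_smul]
    rw [h1, h2]

theorem PD_ps (h : ∀ j, Matrix (ι j) (ι j) K) {N : ℕ} (t : Fin N → Fin q)
    (v : ∀ s, ι (t s) → K) (f : MvPolynomial (Σ i, ι i) K) :
    PD t v (ps h f) = ps h (PD t (fun s => (h (t s)).mulVec (v s)) f) := by
  induction N with
  | zero => rw [PD_zero, PD_zero]
  | succ N ih => rw [PD_succ, PD_succ, ih, DD_ps]

theorem ge_DD {P : Place ℂ K} {c : ℤ} (j : Fin q) (x : ι j → K)
    (hx : ∀ i, Ge P 0 (x i)) (f : MvPolynomial (Σ i, ι i) K) (hf : ∀ α, Ge P c (coeff α f))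
    (α : (Σ i, ι i) →₀ ℕ) : Ge P c (coeff α (DD j x f)) := by
  rw [DD_apply, coeff_sum]
  refine Ge.sum _ fun i _ => ?_
  rw [coeff_smul, smul_eq_mul, coeff_pderiv]
  have h1 := (hf (α + Finsupp.single ⟨j, i⟩ 1)).mul ((hx i).mul
    (ge_int (P := P) ((α ⟨j, i⟩ : ℤ) + 1)))
  rw [add_zero, add_zero] at h1
  convert h1 using 1
  push_cast
  ring

theorem ge_PD {P : Place ℂ K} {c : ℤ} {N : ℕ} (t : Fin N → Fin q)
    (v : ∀ s, ι (t s) → K) (hv : ∀ s i, Ge P 0 (v s i))
    (f : MvPolynomial (Σ i, ι i) K) (hf : ∀ α, Ge P c (coeff α f))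
    (α : (Σ i, ι i) →₀ ℕ) : Ge P c (coeff α (PD t v f)) := by
  induction N generalizing α with
  | zero =>
    rw [PD_zero]
    exact hf α
  | succ N ih =>
    rw [PD_succ]
    exact ge_DD (t 0) (v 0) (hv 0) _ (fun β => ih (fun s => t s.succ) (fun s => v s.succ)
      (fun s i => hv s.succ i) β) α

theorem PD_ne {N : ℕ} (x : Fin N → Σ i, ι i) (f : MvPolynomial (Σ i, ι i) K)
    (β : (Σ i, ι i) →₀ ℕ) (h : coeff (β + ∑ s, Finsupp.single (x s) 1) f ≠ 0) :
    coeff β (PD (fun s => (x s).1) (fun s => Pi.single (x s).2 1) f) ≠ 0 := by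
  classical
  induction N generalizing β with
  | zero =>
    rw [PD_zero]
    rwa [Finset.univ_eq_empty, Finset.sum_empty, add_zero] at h
  | succ N ih =>
    rw [PD_succ, DD_apply, Finset.sum_eq_single (x 0).2]
    · rw [Pi.single_eq_same, one_smul, coeff_pderiv]
      refine mul_ne_zero (ih (fun s => x s.succ) _ ?_) ?_
      · rwa [Fin.sum_univ_succ, ← add_assoc] at h
      · have : CharZero K := charZero_of_injective_algebraMap (algebraMap ℂ K).injective
        exact Nat.cast_add_one_ne_zero _
    · intro i _ hi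
      rw [Pi.single_eq_of_ne hi, zero_smul]
    · intro h1
      exact absurd (Finset.mem_univ _) h1

end

theorem exists_word {V : Type} (α : V →₀ ℕ) :
    ∃ (n : ℕ) (x : Fin n → V), ∑ s, Finsupp.single (x s) 1 = α := by
  induction α using Finsupp.induction_linear with
  | zero => exact ⟨0, Fin.elim0, by rw [Finset.univ_eq_empty, Finset.sum_empty]⟩
  | add f g hf hg =>
    obtain ⟨n, x, hx⟩ := hf
    obtain ⟨m, y, hy⟩ := hg
    refine ⟨n + m, Fin.append x y, ?_⟩
    rw [Fin.sum_univ_add]
    simp only [Fin.append_left, Fin.append_right, hx, hy]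
  | single a b =>
    refine ⟨b, fun _ => a, ?_⟩
    rw [Finset.sum_const, Finset.card_univ, Fintype.card_fin, Finsupp.smul_single, smul_eq_mul,
      mul_one]

end Pool.Agent.Helper64.FL.SlpAux

namespace Pool.Agent.Helper64.FL

open FF Module MvPolynomial Pool.Agent.Helper9.FJ Pool.Agent.Helper9.PP Pool.Agent.Helper9.FL
open SlpAux

/-- **Package SLP.** -/
theorem slp (hMIX : S_MIX) : S_SLP := by
  classical
  intro K _ _ _ q ι _ _ F μ hne hSL e p hp hp0 c hc
  obtain ⟨α, hα⟩ := MvPolynomial.ne_zero_iff.1 hp0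
  obtain ⟨n, x, hx⟩ := exists_word α
  obtain ⟨Tf, hTf⟩ : ∃ Tf : MultilinearMap K (fun s : Fin n => ι (x s).1 → K) K,
      ∀ v, Tf v = coeff 0 (PD (fun s => (x s).1) v p) := by
    refine ⟨((lcoeff K (0 : (Σ i, ι i) →₀ ℕ)).comp
      (LinearMap.applyₗ (R := K) p)).compMultilinearMap
        ((MultilinearMap.mkPiAlgebraFin K n (Module.End K
          (MvPolynomial (Σ i, ι i) K))).compLinearMap (fun s => DD (x s).1)), ?_⟩
    intro v
    rfl
  have key : ∑ s, μ (x s).1 ≤ ddeg c := by
    refine hMIX F μ hne hSL n (fun s => (x s).1) (fun L => Tf (fun s => Pi.single (L s) 1)) ?_ c ?_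
    · intro h0
      have h1 := congrFun h0 (fun s => (x s).2)
      beta_reduce at h1
      rw [hTf] at h1
      exact PD_ne x p 0 (by rwa [zero_add, hx]) h1
    · intro P I
      have h1 : ∑ J : (∀ s, ι (x s).1), (∏ s, (F (x s).1).B P (I s) (J s)) *
          Tf (fun s => Pi.single (J s) 1) = Tf (fun s => (F (x s).1).B P (I s)) := by
        have h2 : (fun s => (F (x s).1).B P (I s)) =
            fun s => ∑ j, (F (x s).1).B P (I s) j • (Pi.single j 1 : ι (x s).1 → K) := by
          funext s
          exact pi_eq_sum_univ' _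
        calc _ = ∑ J : (∀ s, ι (x s).1), Tf (fun s => (F (x s).1).B P (I s) (J s) •
              (Pi.single (J s) 1 : ι (x s).1 → K)) := by
              refine Finset.sum_congr rfl fun J _ => ?_
              rw [MultilinearMap.map_smul_univ, smul_eq_mul]
          _ = Tf (fun s => ∑ j, (F (x s).1).B P (I s) j • (Pi.single j 1 : ι (x s).1 → K)) :=
              (MultilinearMap.map_sum Tf (fun s j => (F (x s).1).B P (I s) j •
                (Pi.single j 1 : ι (x s).1 → K))).symm
          _ = _ := congrArg Tf h2.symm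
      have h3 := PD_ps (fun j => ((F j).B P).transpose) (fun s => (x s).1)
        (fun s => Pi.single (I s) 1) p
      have h4 : (fun s => (((F (x s).1).B P).transpose).mulVec (Pi.single (I s) 1)) =
          fun s => (F (x s).1).B P (I s) := by
        funext s
        funext j
        rw [Matrix.mulVec_single_one]
        rfl
      rw [h4] at h3
      have h5 : Tf (fun s => (F (x s).1).B P (I s)) =
          coeff 0 (PD (fun s => (x s).1) (fun s => Pi.single (I s) 1)
            (ps (fun j => ((F j).B P).transpose) p)) := by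
        rw [h3, coeff0_ps, hTf]
      have h6 : Ge P (-c P) (coeff 0 (PD (fun s => (x s).1) (fun s => Pi.single (I s) 1)
            (ps (fun j => ((F j).B P).transpose) p))) := by
        refine ge_PD _ _ (fun s i => ?_) _ (fun β => hc P β) 0
        rw [Pi.single_apply]
        split_ifs
        · exact ge_one
        · exact ge_zero
      rw [← h5, ← h1] at h6
      exact h6
  have h3 : ∑ s, μ (x s).1 = ∑ j, e j * μ j := by
    have h4 : ∀ j, (e j : ℝ) = ∑ i, (α ⟨j, i⟩ : ℝ) := by
      intro j
      have := hp α hα j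
      rw [← this]
      push_cast
      rfl
    have h5 : ∀ y : Σ i, ι i, (α y : ℝ) = ∑ s, if x s = y then 1 else 0 := by
      intro y
      rw [← hx, Finsupp.finsetSum_apply]
      push_cast
      refine Finset.sum_congr rfl fun s _ => ?_
      rw [Finsupp.single_apply]
      split_ifs <;> simp
    simp only [h4, Finset.sum_mul]
    rw [← Fintype.sum_sigma' (f := fun j i => (α ⟨j, i⟩ : ℝ) * μ j)]
    simp only [h5, Finset.sum_mul]
    rw [Finset.sum_comm]
    refine Finset.sum_congr rfl fun s _ => ?_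
    simp only [ite_mul, one_mul, zero_mul]
    rw [Finset.sum_ite_eq]
    simp
  rw [← h3]
  exact key

end Pool.Agent.Helper64.FL
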