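import Pool.Agent.Helper9.FL.Stm
import Pool.Agent.Helper9.GR.Wedge

/-!
Project FL (helper9), package WDG (helper64): slopes of exterior powers, from MIX.
-/

set_option autoImplicit false
set_option linter.unusedSectionVars false

namespace Pool.Agent.Helper64.FL

open FF Module Pool.Agent.Helper9.FJ Pool.Agent.Helper9.PP Pool.Agent.Helper9.GR
  Pool.Agent.Helper9.FL

theorem le_emb {k r : ℕ} (T : Fin k ↪o Fin r) (n : ℕ) (hn : n < k) : n ≤ (T ⟨n, hn⟩ : ℕ) := by
  induction n with
  | zero => exact Nat.zero_le _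
  | succ n ih =>
    have h1 := ih (by omega)
    have h2 : T ⟨n, by omega⟩ < T ⟨n + 1, hn⟩ := T.strictMono (by rw [Fin.lt_def]; simp)
    rw [Fin.lt_def] at h2
    omega

theorem sum_le_inj {k r : ℕ} (hkr : k ≤ r) {m : Fin r → ℝ} (hm : Monotone m) {f : Fin k → Fin r}
    (hf : Function.Injective f) :
    ∑ c ∈ Finset.univ.filter (fun c : Fin r => (c : ℕ) < k), m c ≤ ∑ l, m (f l) := by
  obtain ⟨T, σ, rfl⟩ := exists_sort hf
  have h1 : ∑ l, m ((T ∘ σ) l) = ∑ l, m (T l) := Equiv.sum_comp σ (fun l => m (T l))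
  have h2 : ∑ c ∈ Finset.univ.filter (fun c : Fin r => (c : ℕ) < k), m c =
      ∑ l : Fin k, m (Fin.castLE hkr l) := by
    symm
    refine Finset.sum_bij (fun l _ => Fin.castLE hkr l) ?_ ?_ ?_ ?_
    · intro l _
      rw [Finset.mem_filter]
      exact ⟨Finset.mem_univ _, l.2⟩
    · intro a _ b _ h
      exact Fin.castLE_injective hkr h
    · intro c hc
      exact ⟨⟨c, (Finset.mem_filter.1 hc).2⟩, Finset.mem_univ _, rfl⟩
    · intro l _
      rfl
  rw [h1, h2]
  refine Finset.sum_le_sum fun l _ => hm ?_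
  rw [Fin.le_def]
  exact le_emb T l l.2

section

variable {K : Type} [Field K] {r N : ℕ}

/-- expansion of a multilinear form on linear combinations -/
theorem expand {ι : Type} [Fintype ι] [DecidableEq ι]
    (D : MultilinearMap K (fun _ : Fin N => Fin r → K) K) (a : Fin N → ι → K)
    (v : ι → Fin r → K) :
    D (fun s => ∑ j, a s j • v j) = ∑ J : Fin N → ι, (∏ s, a s (J s)) * D (fun s => v (J s)) := by
  classical
  rw [MultilinearMap.map_sum]
  refine Finset.sum_congr rfl fun J _ => ?_
  rw [MultilinearMap.map_smul_univ, smul_eq_mul]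

theorem exists_ne (D : MultilinearMap K (fun _ : Fin N => Fin r → K) K) (hD : D ≠ 0)
    {G : Matrix (Fin r) (Fin r) K} (hG : G.det ≠ 0) : ∃ J : Fin N → Fin r, D (fun s => G (J s)) ≠ 0 := by
  by_contra hcon
  push Not at hcon
  apply hD
  refine MultilinearMap.ext fun v => ?_
  have h1 : v = fun s => ∑ j, (Matrix.vecMul (v s) G⁻¹) j • G j := by
    funext s
    have h2 : Matrix.vecMul (Matrix.vecMul (v s) G⁻¹) G = v s := by
      rw [Matrix.vecMul_vecMul, Matrix.nonsing_inv_mul _ (isUnit_iff_ne_zero.2 hG),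
        Matrix.vecMul_one]
    have h3 := Matrix.vecMul_eq_sum (Matrix.vecMul (v s) G⁻¹) G
    rw [h2] at h3
    exact h3
  calc D v = D (fun s => ∑ j, (Matrix.vecMul (v s) G⁻¹) j • G j) := congrArg D h1
    _ = ∑ J : Fin N → Fin r, (∏ s, (Matrix.vecMul (v s) G⁻¹) (J s)) * D (fun s => G (J s)) :=
        expand D (fun s j => (Matrix.vecMul (v s) G⁻¹) j) (fun j => G j)
    _ = 0 := Finset.sum_eq_zero fun J _ => by rw [hcon, mul_zero]

end

theorem wdg (hMIX : S_MIX) : S_WDG := by
  classical
  intro K _ _ _ r E h k hk hkr ρ Λ d hρ hd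
  have hr : 0 < r := by omega
  obtain ⟨c, hc⟩ : ∃ c : MultilinearMap K (fun _ : Fin k => Fin r → K) (Fin ρ → K),
      ∀ u, c u = Matrix.vecMul (pluM k r u) Λ :=
    ⟨(Matrix.vecMulLinear Λ).compMultilinearMap (pluM k r), fun _ => rfl⟩
  obtain ⟨D, hD⟩ : ∃ D : MultilinearMap K (fun _ : Fin (ρ * k) => Fin r → K) K,
      D = (detForm c).domDomCongr finProdFinEquiv := ⟨_, rfl⟩
  have hTv : ∀ J : Fin (ρ * k) → Fin r → K, D J =
      (Matrix.of fun i => c (fun l => J (finProdFinEquiv (i, l)))).det := fun _ => by rw [hD]; rfl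
  -- the form is not zero
  have hD0 : D ≠ 0 := by
    obtain ⟨P, -⟩ := exists_place (k := ℂ) (K := K)
    obtain ⟨S, hS, -⟩ := (hd P).2
    intro h0
    apply hS
    have h1 := congrArg (fun D => D (fun x => E.B P (sub k r (S (finProdFinEquiv.symm x).1)
      (finProdFinEquiv.symm x).2))) h0
    beta_reduce at h1
    rw [hTv] at h1
    simp only [Equiv.symm_apply_apply] at h1
    rw [zero_apply] at h1
    rw [← h1]
    congr 1
    ext i j
    rw [Matrix.submatrix_apply, Matrix.of_apply, hc]
    rfl
  -- its values on the rows of `E.B P`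
  have hval : ∀ (P : Place ℂ K) (J : Fin (ρ * k) → Fin r), Ge P (-d P) (D (fun s => E.B P (J s))) := by
    intro P J
    rw [hTv]
    by_cases hz : ∃ i : Fin ρ, pluM k r (fun l => E.B P (J (finProdFinEquiv (i, l)))) = 0
    · obtain ⟨i, hi⟩ := hz
      left
      refine Matrix.det_eq_zero_of_row_eq_zero i fun x => ?_
      rw [Matrix.of_apply, hc, hi, Matrix.zero_vecMul]
      rfl
    · push Not at hz
      have h1 : ∀ i : Fin ρ, ∃ (x : Fin (Rk k r)) (ε : ℤˣ),
          pluM k r (fun l => E.B P (J (finProdFinEquiv (i, l)))) = ((ε : ℤ) : K) • cpd k (E.B P) x :=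
        fun i => (pluM_rows (E.B P) fun l => J (finProdFinEquiv (i, l))).resolve_left (hz i)
      choose S ε hSε using h1
      have h2 : (Matrix.of fun i => c (fun l => E.B P (J (finProdFinEquiv (i, l))))) =
          Matrix.of fun i j => ((ε i : ℤ) : K) *
            (((wedge k E).B P * Λ).submatrix S id) i j := by
        ext i j
        rw [Matrix.of_apply, Matrix.of_apply, hc, hSε, Matrix.smul_vecMul]
        rfl
      rw [h2, Matrix.det_mul_column]
      have h3 := (Ge.prod0 (P := P) Finset.univ fun i (_ : i ∈ Finset.univ) =>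
        ge_int (P := P) (ε i : ℤ)).mul ((hd P).1 S)
      rwa [zero_add] at h3
  -- a word on which it does not vanish
  obtain ⟨J, hJ⟩ := exists_ne D hD0 h.hG
  -- the word is injective in the groups
  have hinj : ∀ i : Fin ρ, Function.Injective fun l : Fin k => J (finProdFinEquiv (i, l)) := by
    intro i l l' hll
    beta_reduce at hll
    by_contra hne'
    apply hJ
    rw [hTv]
    refine Matrix.det_eq_zero_of_row_eq_zero i fun x => ?_
    rw [Matrix.of_apply, hc]
    have h1 : pluM k r (fun l => h.G (J (finProdFinEquiv (i, l)))) = 0 := by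
      by_contra h2
      exact hne' (pluM_ne h2 (congrArg h.G hll))
    rw [h1, Matrix.zero_vecMul]
    rfl
  -- the slope inequality for the restriction to the subbundles
  have key : ∑ s, h.m (J s) ≤ ddeg d := by
    refine hMIX (fun a => h.F a) h.m (fun a => ⟨⟨a, le_rfl⟩⟩) h.hS (ρ * k) J
      (fun L => D (fun s => h.G (L s).1)) ?_ d ?_
    · intro h0
      exact hJ (congrFun h0 (fun s => ⟨J s, le_rfl⟩))
    · intro P I
      obtain ⟨X, U, hX, hU, hXU, hEX⟩ := h.hC P
      have hUX : U * X = 1 := mul_eq_one_comm.1 hXU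
      -- the rows of `C P * G` are integral combinations of the rows of `E.B P`
      have h1 : h.C P * h.G = U * E.B P := by
        calc h.C P * h.G = U * X * h.C P * h.G := by rw [hUX, Matrix.one_mul]
          _ = U * (X * h.C P) * h.G := by rw [Matrix.mul_assoc U X]
          _ = U * (E.B P * h.G⁻¹) * h.G := by rw [hEX]
          _ = U * E.B P * (h.G⁻¹ * h.G) := by simp only [Matrix.mul_assoc]
          _ = U * E.B P := by
            rw [Matrix.nonsing_inv_mul _ (isUnit_iff_ne_zero.2 h.hG), Matrix.mul_one]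
      have h2 : ∀ s, ∑ b : {b : Fin r // h.blk (J s) ≤ h.blk b}, (h.F (J s)).B P (I s) b • h.G b.1 =
          ∑ j, U (I s).1 j • E.B P j := by
        intro s
        have h3 : ∑ b : {b : Fin r // h.blk (J s) ≤ h.blk b}, (h.F (J s)).B P (I s) b • h.G b.1 =
            ∑ b : Fin r, h.C P (I s).1 b • h.G b := by
          have e1 : ∀ b : {b : Fin r // h.blk (J s) ≤ h.blk b},
              (h.F (J s)).B P (I s) b = h.C P (I s).1 b.1 := by
            intro b
            rw [h.hF]
            rfl
          simp only [e1]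
          rw [← Finset.sum_subtype (Finset.univ.filter fun b : Fin r => h.blk (J s) ≤ h.blk b)
            (by simp) (fun b => h.C P (I s).1 b • h.G b), Finset.sum_filter]
          refine Finset.sum_congr rfl fun b _ => ?_
          split_ifs with hb
          · rfl
          · have h0 : h.C P (I s).1 b = 0 := by
              by_contra h0
              exact hb ((I s).2.trans (h.htri P _ _ h0))
            rw [h0, zero_smul]
        rw [h3]
        funext x
        have h4 := congrFun (congrFun h1 (I s).1) x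
        rw [Matrix.mul_apply, Matrix.mul_apply] at h4
        simp only [Finset.sum_apply, Pi.smul_apply, smul_eq_mul]
        exact h4
      have h3 : ∑ L : (∀ s, {b : Fin r // h.blk (J s) ≤ h.blk b}),
          (∏ s, (h.F (J s)).B P (I s) (L s)) * D (fun s => h.G (L s).1) =
          D (fun s => ∑ b : {b : Fin r // h.blk (J s) ≤ h.blk b},
            (h.F (J s)).B P (I s) b • h.G b.1) := by
        rw [MultilinearMap.map_sum]
        refine Finset.sum_congr rfl fun L _ => ?_
        rw [MultilinearMap.map_smul_univ, smul_eq_mul]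
      have h4 : D (fun s => ∑ b : {b : Fin r // h.blk (J s) ≤ h.blk b},
            (h.F (J s)).B P (I s) b • h.G b.1) = D (fun s => ∑ j, U (I s).1 j • E.B P j) := by
        congr 1
        funext s
        exact h2 s
      have h7 := expand D (fun s j => U (I s).1 j) (fun j => E.B P j)
      have h8 : Ge P (-d P) (∑ J' : Fin (ρ * k) → Fin r, (∏ s, U (I s).1 (J' s)) *
          D (fun s => E.B P (J' s))) := by
        refine Ge.sum _ fun J' _ => ?_
        have h5 := (Ge.prod0 (P := P) Finset.univ fun s (_ : s ∈ Finset.univ) =>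
          hU (I s).1 (J' s)).mul (hval P J')
        rwa [zero_add] at h5
      have h9 := h3.trans (h4.trans h7)
      rw [← h9] at h8
      exact h8
  have h6 : ∑ s, h.m (J s) = ∑ i : Fin ρ, ∑ l : Fin k, h.m (J (finProdFinEquiv (i, l))) := by
    rw [← Fintype.sum_prod_type' (fun (i : Fin ρ) (l : Fin k) => h.m (J (finProdFinEquiv (i, l))))]
    exact (Equiv.sum_comp finProdFinEquiv fun s => h.m (J s)).symm
  rw [h6] at key
  refine le_trans ?_ key
  calc (∑ c ∈ Finset.univ.filter (fun c : Fin r => (c : ℕ) < k), h.m c) * (ρ : ℝ)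
      = ∑ _i : Fin ρ, ∑ c ∈ Finset.univ.filter (fun c : Fin r => (c : ℕ) < k), h.m c := by
        rw [Finset.sum_const, Finset.card_univ, Fintype.card_fin, nsmul_eq_mul, mul_comm]
    _ ≤ _ := Finset.sum_le_sum fun i _ => sum_le_inj hkr.le h.hm (hinj i)

end Pool.Agent.Helper64.FL
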